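import Pool.Agent.H27.Two.Comb

/-!
# Blocks: large relations contain small ones
-/

set_option autoImplicit false
set_option linter.unusedSectionVars false

namespace Pool.Agent.H27.Two

open Pool.Agent.Q56.FD hiding Qb
open Pool.Agent.H27.K3 Pool.Agent.H27.Lin IntermediateField

/-- lists with small multiplicities are short -/
lemma isShortInBlocks_of {I J : Type*} [inst : DecidableEq I] {q : ℕ} {w : I → ℕ}
    {γ : I → Qb} {B : I → J} {c : I → ℚ} {n : I → ℕ} {κ : ℕ} {D : ℚ} (hq : 0 < q)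
    (hw : ∀ t, IsWeil q (w t) (γ t)) {L : List (I × Qb)}
    (hL : ∀ l ∈ L, IsConjRoot ℚ (γ l.1) l.2)
    (hno : ∀ l ∈ L, (l.1, (q : Qb) ^ w l.1 / l.2) ∉ L) (hc : ∀ t, 0 < c t)
    (h : ∀ t, ∀ ζ ∈ cj (γ t), c t * |cnt q w L t ζ AlgEquiv.refl| ≤
      (letters γ B (B t)).ncard / 2 * D + κ * (c t * n t)) :
    IsShortInBlocks γ B c n κ D (L.map Prod.fst) := by
  obtain rfl : inst = fun a b => Classical.propDecidable (a = b) := Subsingleton.elim _ _
  classical
  intro t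
  set N : ℕ := ⌊((letters γ B (B t)).ncard / 2 * D + κ * (c t * n t)) / c t⌋₊ with hN
  have h1 : ∀ ζ ∈ cj (γ t), |cnt q w L t ζ AlgEquiv.refl| ≤ (N : ℚ) := by
    intro ζ hζ
    have h3 := h t ζ hζ
    rw [cnt_eq_count] at h3 ⊢
    have h4 : |(L.count (t, ζ) : ℚ) - L.count (t, (q : Qb) ^ w t / ζ)| =
        ((((L.count (t, ζ) : ℤ) - L.count (t, (q : Qb) ^ w t / ζ)).natAbs : ℕ) : ℚ) := by
      rw [Nat.cast_natAbs]
      push_cast
      rfl
    rw [h4] at h3 ⊢
    have h5 : ((((L.count (t, ζ) : ℤ) - L.count (t, (q : Qb) ^ w t / ζ)).natAbs : ℕ) : ℚ) ≤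
        ((letters γ B (B t)).ncard / 2 * D + κ * (c t * n t)) / c t := by
      rw [le_div_iff₀ (hc t), mul_comm]
      exact h3
    exact_mod_cast Nat.le_floor h5
  have h2 : 2 * ((L.map Prod.fst).count t : ℚ) ≤ (minpoly ℚ (γ t)).natDegree * (N : ℚ) := by
    refine (two_count_le hq hw hL hno t).trans ((Finset.sum_le_sum h1).trans ?_)
    rw [Finset.sum_const, card_cj, nsmul_eq_mul]
  have h3 : 2 * (L.map Prod.fst).count t ≤ (minpoly ℚ (γ t)).natDegree * N := by
    exact_mod_cast h2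
  exact h3

section Split

variable {I J : Type*} [DecidableEq I] [DecidableEq J] {p : ℕ} [Fact p.Prime] {a : ℕ}
  {ι : Qb →+* PadicAlgCl p} {lam : Qb → ℚ} {w : I → ℕ} {γ : I → Qb} {B : I → J}
  {c : I → ℚ} {n : I → ℕ} {κ : ℕ}

/-- the slope of a product -/
lemma lam_list (hlam : ∀ z, (lam z : ℝ) = sl (p ^ a) ι z)
    (hw : ∀ t, IsWeil (p ^ a) (w t) (γ t)) {L : List (I × Qb)}
    (hL : ∀ l ∈ L, IsConjRoot ℚ (γ l.1) l.2) (g : Qb ≃ₐ[ℚ] Qb) :
    2 * lam (g (L.map Prod.snd).prod) - (((L.map fun l => w l.1).sum : ℕ) : ℚ) =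
      (L.map fun l => dev lam w (app g l)).sum := by
  have hq : 0 < p ^ a := pow_pos (Fact.out : p.Prime).pos a
  induction L with
  | nil =>
    simp only [List.map_nil, List.prod_nil, List.sum_nil, map_one, lam_one hlam]
    norm_num
  | cons l L ih =>
    have h1 := ih fun l' hl' => hL l' (List.mem_cons_of_mem _ hl')
    have h2 : g l.2 ≠ 0 := (map_ne_zero g).2
      (((hw l.1).conj (hL l List.mem_cons_self)).ne_zero hq)
    have h3 : g (L.map Prod.snd).prod ≠ 0 := (map_ne_zero g).2 (List.prod_ne_zero (by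
      intro h4
      obtain ⟨l', hl', h5⟩ := List.mem_map.1 h4
      exact ((hw l'.1).conj (hL l' (List.mem_cons_of_mem _ hl'))).ne_zero hq h5))
    simp only [List.map_cons, List.prod_cons, List.sum_cons, map_mul]
    rw [← h1, lam_mul hlam h2 h3]
    change _ = 2 * lam (g l.2) - (w l.1 : ℚ) + _
    push_cast
    ring

/-- **Large relations contain small ones.** -/
theorem short_or_split (ha : 0 < a) (hlam : ∀ z, (lam z : ℝ) = sl (p ^ a) ι z)
    (hw : ∀ t, IsWeil (p ^ a) (w t) (γ t)) (hB : BlockSigns (p ^ a) w γ B)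
    (h2 : AtMostTwoPairs lam w γ B c) (hfin : ∀ b, (letters γ B b).Finite)
    (hn : ∀ t, 0 < n t) (hcn : ∀ t s, B t = B s → c t * n t = c s * n s) (hκ0 : 0 < κ)
    (hκ : KillsTorsion lam (p ^ a) w γ κ) {β : Qb} {i : ℕ}
    (hβ : IsWeil (p ^ a) i β) {D : ℚ} (hD : ∀ β', IsConjRoot ℚ β β' → width lam i β' ≤ D)
    {L : List (I × Qb)} (hL : ∀ l ∈ L, IsConjRoot ℚ (γ l.1) l.2) {j : ℕ}
    (hprod : β * (L.map Prod.snd).prod = ((p ^ a : ℕ) : Qb) ^ j)
    (hdeg : i + (L.map fun l => w l.1).sum = 2 * j)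
    (hno : ∀ l ∈ L, (l.1, ((p ^ a : ℕ) : Qb) ^ w l.1 / l.2) ∉ L) :
    IsShortInBlocks γ B c n κ D (L.map Prod.fst) ∨
      ∃ L₁ L₂ : List (I × Qb), L.Perm (L₁ ++ L₂) ∧ L₁ ≠ [] ∧
        (∃ j, (L₁.map Prod.snd).prod = ((p ^ a : ℕ) : Qb) ^ j ∧
          (L₁.map fun l => w l.1).sum = 2 * j) ∧
        IsShortInBlocks γ B c n κ D (L₁.map Prod.fst) := by
  classical
  have hq : 0 < p ^ a := pow_pos (Fact.out : p.Prime).pos a
  have hc : ∀ t, 0 < c t := by
    intro t
    obtain ⟨z, hz, h0⟩ := h2.exists_ne t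
    rw [← h2.width_eq t z hz h0]
    exact abs_pos.2 (sub_ne_zero.2 h0)
  by_cases hbig : ∀ t, ∀ ζ ∈ cj (γ t), c t * |cnt (p ^ a) w L t ζ AlgEquiv.refl| ≤
      (letters γ B (B t)).ncard / 2 * D + κ * (c t * n t)
  · exact Or.inl (isShortInBlocks_of hq hw hL hno hc hbig)
  right
  push Not at hbig
  obtain ⟨t0, ζ1, hζ1, hbig1⟩ := hbig
  -- the sign of the large letter
  have hpos : ∃ ζ0 ∈ cj (γ t0), (letters γ B (B t0)).ncard / 2 * D + κ * (c t0 * n t0) <
      c t0 * cnt (p ^ a) w L t0 ζ0 AlgEquiv.refl := by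
    rcases le_total 0 (cnt (p ^ a) w L t0 ζ1 AlgEquiv.refl) with h | h
    · exact ⟨ζ1, hζ1, by rwa [abs_of_nonneg h] at hbig1⟩
    · refine ⟨_, mem_cj.2 ((mem_cj.1 hζ1).trans (((hw t0).conj (mem_cj.1 hζ1)).dual hq)), ?_⟩
      rwa [cnt_dual hq, ← abs_of_nonpos h]
  obtain ⟨ζ0, hζ0, hlarge⟩ := hpos
  set b : J := B t0 with hb
  have hslope := slopeSum_le ha hlam hw hB hβ hD hL hprod hdeg b
  have hD0 : 0 ≤ D := (abs_nonneg _).trans (hslope AlgEquiv.refl)
  set E : ℚ := κ * (c t0 * n t0) with hE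
  have hE0 : 0 ≤ E := mul_nonneg (Nat.cast_nonneg _) (mul_nonneg (hc t0).le (Nat.cast_nonneg _))
  have hcn' : ∀ t, B t = b → c t * n t = c t0 * n t0 := fun t ht => hcn t t0 ht
  let V : Finset (I × Qb) := (hfin b).toFinset
  have hV : ∀ v, v ∈ V ↔ B v.1 = b ∧ IsConjRoot ℚ (γ v.1) v.2 := fun v => (hfin b).mem_toFinset
  have hVcard : (V.card : ℚ) = (letters γ B b).ncard := by
    rw [Set.ncard_eq_toFinset_card _ (hfin b)]
  let A : I × Qb → ℚ := fun v => c v.1 * cnt (p ^ a) w L v.1 v.2 AlgEquiv.refl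
  have hA : ∀ v, A (bar (p ^ a) w v) = - A v := by
    intro v
    change c v.1 * cnt (p ^ a) w L v.1 (((p ^ a : ℕ) : Qb) ^ w v.1 / v.2) AlgEquiv.refl = _
    rw [cnt_dual hq, mul_neg]
  have hVbar : ∀ v ∈ V, bar (p ^ a) w v ∈ V := fun v hv =>
    (hV _).2 ⟨((hV v).1 hv).1, conj_bar hq hw ((hV v).1 hv).2⟩
  have hv0 : (t0, ζ0) ∈ V := (hV _).2 ⟨rfl, mem_cj.1 hζ0⟩
  obtain ⟨P, hPV, hPne, hPbig, hPst⟩ := exists_stable_set V A (bar (p ^ a) w) hA hVbar
    (bar_bar hq) hD0 hE0 hv0 (by rw [hVcard]; exact hlarge)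
  -- duality of the deviations
  have hdual : ∀ l : I × Qb, IsConjRoot ℚ (γ l.1) l.2 →
      dev lam w (bar (p ^ a) w l) = - dev lam w l := by
    intro l hl
    change 2 * lam (((p ^ a : ℕ) : Qb) ^ w l.1 / l.2) - (w l.1 : ℚ) =
      - (2 * lam l.2 - (w l.1 : ℚ))
    rw [lam_dual ha hlam (((hw l.1).conj hl).ne_zero hq)]
    ring
  have hdevc : ∀ l : I × Qb, IsConjRoot ℚ (γ l.1) l.2 → dev lam w l ≠ 0 →
      |dev lam w l| = c l.1 := fun l hl h0 => h2.width_eq l.1 l.2 hl (sub_ne_zero.1 h0)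
  -- exceptional letters with positive deviation
  have hsign : ∀ l : I × Qb, B l.1 = b → IsConjRoot ℚ (γ l.1) l.2 → dev lam w l ≠ 0 →
      ∃ x : I × Qb, (x = l ∨ x = bar (p ^ a) w l) ∧ B x.1 = b ∧ IsConjRoot ℚ (γ x.1) x.2 ∧
        dev lam w x = c x.1 := by
    intro l hlb hl h0
    rcases lt_or_gt_of_ne h0 with h | h
    · refine ⟨bar (p ^ a) w l, Or.inr rfl, hlb, conj_bar hq hw hl, ?_⟩
      rw [hdual l hl, ← abs_of_neg h]
      exact hdevc l hl h0
    · refine ⟨l, Or.inl rfl, hlb, hl, ?_⟩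
      rw [← hdevc l hl h0, abs_of_pos h]
  obtain ⟨z0, hz0, hz0'⟩ := h2.exists_ne t0
  obtain ⟨x, -, hxb, hx, hxc, hx1⟩ : ∃ x : I × Qb, True ∧ B x.1 = b ∧
      IsConjRoot ℚ (γ x.1) x.2 ∧ dev lam w x = c x.1 ∧ x.1 = t0 := by
    obtain ⟨x, hx1, hx2, hx3, hx4⟩ := hsign (t0, z0) rfl hz0 (sub_ne_zero.2 hz0')
    refine ⟨x, trivial, hx2, hx3, hx4, ?_⟩
    rcases hx1 with rfl | rfl <;> rfl
  have hx0 : dev lam w x ≠ 0 := by rw [hxc]; exact (hc x.1).ne'
  by_cases hone : ∀ l : I × Qb, B l.1 = b → IsConjRoot ℚ (γ l.1) l.2 → dev lam w l ≠ 0 →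
      l = x ∨ l = bar (p ^ a) w x
  · -- one pair of exceptional letters
    exfalso
    obtain ⟨h, hh⟩ := isConjRoot_iff_exists_algEquiv.1
      ((show IsConjRoot ℚ (γ t0) ζ0 from mem_cj.1 hζ0).symm.trans (hx1 ▸ hx))
    have h3 := hslope h.symm
    rw [slopeSum_one hq hdual hx hxb hx0 hone hL] at h3
    have h4 : h.symm.symm x.2 = ζ0 := hh
    rw [h4, hxc, hx1] at h3
    have h5 : 2 ≤ V.card := by
      have h6 : bar (p ^ a) w (t0, ζ0) ≠ (t0, ζ0) := by
        intro h7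
        have h8 := hA (t0, ζ0)
        rw [h7] at h8
        have h9 : A (t0, ζ0) = 0 := by linarith
        have h10 : 0 < A (t0, ζ0) := lt_of_le_of_lt
          (add_nonneg (mul_nonneg (by positivity) hD0) hE0) hlarge
        linarith
      have h7 := Finset.card_le_card (show ({bar (p ^ a) w (t0, ζ0), (t0, ζ0)} :
        Finset (I × Qb)) ⊆ V from by
          intro u hu
          rw [Finset.mem_insert, Finset.mem_singleton] at hu
          rcases hu with rfl | rfl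
          · exact hVbar _ hv0
          · exact hv0)
      rw [Finset.card_pair h6] at h7
      exact h7
    have h6 : (2 : ℚ) ≤ (letters γ B b).ncard := by
      rw [← hVcard]
      exact_mod_cast h5
    have h7 := (abs_le.1 h3).2
    nlinarith
  -- two pairs of exceptional letters
  push Not at hone
  obtain ⟨y0, hy0b, hy0, hy00, hy0x, hy0x'⟩ := hone
  obtain ⟨y, hy1, hyb, hy, hyc⟩ := hsign y0 hy0b hy0 hy00
  have hyx : y ≠ x := by
    rintro rfl
    rcases hy1 with h | h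
    · exact hy0x h.symm
    · exact hy0x' (by rw [h, bar_bar hq])
  have hyx' : y ≠ bar (p ^ a) w x := by
    rintro rfl
    rcases hy1 with h | h
    · exact hy0x' h.symm
    · have h3 := congrArg (bar (p ^ a) w) h
      rw [bar_bar hq, bar_bar hq] at h3
      exact hy0x h3.symm
  have hyne : dev lam w y ≠ 0 := by rw [hyc]; exact (hc y.1).ne'
  have hxx : x ≠ bar (p ^ a) w x := by
    intro h
    have h1 := hdual x hx
    rw [← h] at h1
    apply hx0
    linarith
  have hyy : y ≠ bar (p ^ a) w y := by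
    intro h
    have h1 := hdual y hy
    rw [← h] at h1
    apply hyne
    linarith
  have hall : ∀ l : I × Qb, B l.1 = b → IsConjRoot ℚ (γ l.1) l.2 → dev lam w l ≠ 0 →
      l = x ∨ l = bar (p ^ a) w x ∨ l = y ∨ l = bar (p ^ a) w y := by
    intro l hlb hl hl0
    by_contra hcon
    push Not at hcon
    obtain ⟨h3, h4, h5, h6⟩ := hcon
    have h7 : ({l, x, bar (p ^ a) w x, y, bar (p ^ a) w y} : Finset (I × Qb)).card = 5 := by
      rw [Finset.card_insert_of_notMem, Finset.card_insert_of_notMem,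
        Finset.card_insert_of_notMem, Finset.card_pair hyy]
      · simp only [Finset.mem_insert, Finset.mem_singleton, not_or]
        refine ⟨hyx'.symm, fun h8 => hyx ?_⟩
        rw [← bar_bar (w := w) hq x, h8, bar_bar hq]
      · simp only [Finset.mem_insert, Finset.mem_singleton, not_or]
        refine ⟨hxx, hyx.symm, fun h8 => hyx' ?_⟩
        rw [h8, bar_bar hq]
      · simp only [Finset.mem_insert, Finset.mem_singleton, not_or]
        exact ⟨h3, h4, h5, h6⟩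
    have h8 : (({l, x, bar (p ^ a) w x, y, bar (p ^ a) w y} : Finset (I × Qb)) :
        Set (I × Qb)) ⊆ {l ∈ letters γ B b | 2 * lam l.2 ≠ w l.1} := by
      intro u hu
      have hbx : dev lam w (bar (p ^ a) w x) ≠ 0 := by rw [hdual x hx]; exact neg_ne_zero.2 hx0
      have hby : dev lam w (bar (p ^ a) w y) ≠ 0 := by rw [hdual y hy]; exact neg_ne_zero.2 hyne
      simp only [Finset.coe_insert, Finset.coe_singleton, Set.mem_insert_iff,
        Set.mem_singleton_iff] at hu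
      rcases hu with rfl | rfl | rfl | rfl | rfl
      · exact ⟨⟨hlb, hl⟩, sub_ne_zero.1 hl0⟩
      · exact ⟨⟨hxb, hx⟩, sub_ne_zero.1 hx0⟩
      · exact ⟨⟨hxb, conj_bar hq hw hx⟩, sub_ne_zero.1 hbx⟩
      · exact ⟨⟨hyb, hy⟩, sub_ne_zero.1 hyne⟩
      · exact ⟨⟨hyb, conj_bar hq hw hy⟩, sub_ne_zero.1 hby⟩
    have h9 := (Set.encard_le_encard h8).trans (h2.four b)
    rw [Set.encard_coe_eq_coe_finsetCard, h7] at h9
    exact absurd h9 (by decide)
  -- the relations
  have hrel : ∀ h : Qb ≃ₐ[ℚ] Qb, |A (app h x) + A (app h y)| ≤ D := by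
    intro h
    have h3 := hslope h.symm
    rw [slopeSum_two hq hdual hx hy hxb hyb hx0 hyne hyx hyx' hall hL, hxc, hyc] at h3
    exact h3
  have hVx : ∀ h : Qb ≃ₐ[ℚ] Qb, app h x ∈ V := fun h => (hV _).2 ⟨hxb, conj_app hx h⟩
  have hVy : ∀ h : Qb ≃ₐ[ℚ] Qb, app h y ∈ V := fun h => (hV _).2 ⟨hyb, conj_app hy h⟩
  let ch : I × Qb → ℚ := fun v => (if v ∈ P then 1 else 0) - if bar (p ^ a) w v ∈ P then 1 else 0
  have hch : ∀ h : Qb ≃ₐ[ℚ] Qb, ch (app h x) + ch (app h y) = 0 := by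
    intro h
    have h3 : app h x ∈ P ↔ bar (p ^ a) w (app h y) ∈ P := by
      constructor
      · exact hPst _ (hVx h) _ (hVy h) (hrel h)
      · intro h4
        have h5 := hPst _ (hVbar _ (hVy h)) _ (hVbar _ (hVx h)) (by
          rw [hA, hA, ← neg_add, abs_neg, add_comm]
          exact hrel h) h4
        rwa [bar_bar hq] at h5
    have h4 : bar (p ^ a) w (app h x) ∈ P ↔ app h y ∈ P := by
      constructor
      · intro h4
        have h5 := hPst _ (hVbar _ (hVx h)) _ (hVbar _ (hVy h)) (by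
          rw [hA, hA, ← neg_add, abs_neg]
          exact hrel h) h4
        rwa [bar_bar hq] at h5
      · exact hPst _ (hVy h) _ (hVx h) (by rw [add_comm]; exact hrel h)
    change ((if app h x ∈ P then 1 else 0) - if bar (p ^ a) w (app h x) ∈ P then (1 : ℚ) else 0) +
      ((if app h y ∈ P then 1 else 0) - if bar (p ^ a) w (app h y) ∈ P then 1 else 0) = 0
    simp only [h3, h4]
    ring
  have hPconj : ∀ v ∈ P, IsConjRoot ℚ (γ v.1) v.2 := fun v hv => ((hV v).1 (hPV hv)).2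
  have hPb : ∀ v ∈ P, B v.1 = b := fun v hv => ((hV v).1 (hPV hv)).1
  have hcnt : ∀ (m : I → ℕ) (t : I) (ζ : Qb), cnt (p ^ a) w (pwd P m) t ζ AlgEquiv.refl =
      m t * ch (t, ζ) := by
    intro m t ζ
    rw [cnt_eq_count, count_pwd, count_pwd]
    change _ = (m t : ℚ) * ((if (t, ζ) ∈ P then 1 else 0) -
      if (t, ((p ^ a : ℕ) : Qb) ^ w t / ζ) ∈ P then 1 else 0)
    split_ifs <;> simp
  -- the slopes of the small word
  have hzero : ∀ g : Qb ≃ₐ[ℚ] Qb,
      ((pwd P n).map fun l => dev lam w (app g l)).sum = 0 := by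
    intro g
    have h3 : ((pwd P n).map fun l => dev lam w (app g l)).sum =
        slopeSum lam w B b (pwd P n) g := by
      rw [slopeSum_eq]
      congr 1
      apply List.map_congr_left
      intro l hl
      rw [if_pos (hPb l (mem_pwd hl))]
    rw [h3, slopeSum_two hq hdual hx hy hxb hyb hx0 hyne hyx hyx' hall
      (fun l hl => hPconj l (mem_pwd hl)), hcnt, hcnt, hxc, hyc, ← mul_assoc, ← mul_assoc,
      hcn' x.1 hxb, hcn' y.1 hyb, ← mul_add]
    have h4 := hch g.symm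
    change ch (x.1, g.symm x.2) + ch (y.1, g.symm y.2) = 0 at h4
    rw [h4, mul_zero]
  obtain ⟨m, hm1, hm2⟩ := hκ (pwd P n) (fun l hl => hPconj l (mem_pwd hl)) (by
    intro g
    let g' : Qb ≃ₐ[ℚ] Qb := AlgEquiv.ofBijective g.toRatAlgHom
      (AlgHom.normal_bijective ℚ Qb Qb _)
    have h3 := lam_list hlam hw (fun l hl => hPconj l (mem_pwd (P := P) (n := n) hl)) g'
    rw [hzero g'] at h3
    have h4 : g' ((pwd P n).map Prod.snd).prod = g ((pwd P n).map Prod.snd).prod := rfl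
    rw [h4] at h3
    linarith)
  have hPpos : ∀ v ∈ P, 0 < A v := fun v hv => lt_of_le_of_lt (add_nonneg hD0 hE0) (hPbig v hv)
  refine ⟨pwd P fun t => κ * n t, L.diff (pwd P fun t => κ * n t), ?_, ?_, ⟨m, ?_, ?_⟩, ?_⟩
  · refine (List.subperm_append_diff_self_of_count_le fun v hv => ?_).symm
    have hvP := mem_pwd hv
    rw [count_pwd, if_pos hvP]
    have h3 := hPbig v hvP
    change D + E < c v.1 * cnt (p ^ a) w L v.1 v.2 AlgEquiv.refl at h3
    rw [cnt_eq_count, hE, ← hcn' v.1 (hPb v hvP)] at h3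
    have h4 : c v.1 * ((κ : ℚ) * n v.1) < c v.1 * (L.count (v.1, v.2) : ℚ) := by
      have h5 : 0 ≤ c v.1 * (L.count (v.1, ((p ^ a : ℕ) : Qb) ^ w v.1 / v.2) : ℚ) :=
        mul_nonneg (hc v.1).le (Nat.cast_nonneg _)
      nlinarith
    have h5 := lt_of_mul_lt_mul_left h4 (hc v.1).le
    have h6 : κ * n v.1 < L.count (v.1, v.2) := by exact_mod_cast h5
    exact h6.le
  · intro h3
    obtain ⟨v, hv⟩ := hPne
    have h4 := count_pwd P (fun t => κ * n t) v
    rw [h3, List.count_nil, if_pos hv] at h4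
    exact (Nat.mul_pos hκ0 (hn v.1)).ne h4
  · rw [prod_pwd, ← hm2, prod_pwd, ← Finset.prod_pow]
    refine Finset.prod_congr rfl fun v _ => ?_
    rw [← pow_mul, mul_comm (n v.1)]
  · rw [sum_pwd, ← hm1, sum_pwd, Finset.mul_sum]
    refine Finset.sum_congr rfl fun v _ => ?_
    ring
  · refine isShortInBlocks_of hq hw (fun l hl => hPconj l (mem_pwd hl)) ?_ hc ?_
    · intro l hl h3
      have h4 := hPpos _ (mem_pwd h3)
      have h5 := hA l
      change A (l.1, ((p ^ a : ℕ) : Qb) ^ w l.1 / l.2) = - A l at h5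
      have h6 := hPpos l (mem_pwd hl)
      linarith
    · intro t ζ hζ
      rw [hcnt]
      by_cases ht : B t = b
      · have h3 : |ch (t, ζ)| ≤ 1 := by
          change |(if (t, ζ) ∈ P then (1 : ℚ) else 0) -
            if (bar (p ^ a) w (t, ζ)) ∈ P then 1 else 0| ≤ 1
          split_ifs <;> norm_num
        rw [abs_mul, Nat.abs_cast]
        have h4 : 0 ≤ ((letters γ B (B t)).ncard : ℚ) / 2 * D :=
          mul_nonneg (by positivity) hD0
        have h5 : c t * (((κ * n t : ℕ) : ℚ) * |ch (t, ζ)|) ≤ κ * (c t * n t) := by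
          have h6 : 0 ≤ c t * ((κ * n t : ℕ) : ℚ) := mul_nonneg (hc t).le (Nat.cast_nonneg _)
          calc c t * (((κ * n t : ℕ) : ℚ) * |ch (t, ζ)|)
              = c t * ((κ * n t : ℕ) : ℚ) * |ch (t, ζ)| := by ring
            _ ≤ c t * ((κ * n t : ℕ) : ℚ) * 1 := mul_le_mul_of_nonneg_left h3 h6
            _ = κ * (c t * n t) := by push_cast; ring
        linarith
      · have h3 : ch (t, ζ) = 0 := by
          change ((if (t, ζ) ∈ P then (1 : ℚ) else 0) -
            if (bar (p ^ a) w (t, ζ)) ∈ P then 1 else 0) = 0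
          rw [if_neg (fun h => ht (hPb _ h)), if_neg (fun h => ht (hPb _ h)), sub_zero]
        rw [h3, mul_zero, abs_zero, mul_zero]
        exact add_nonneg (mul_nonneg (by positivity) hD0)
          (mul_nonneg (Nat.cast_nonneg _) (mul_nonneg (hc t).le (Nat.cast_nonneg _)))

end Split

end Pool.Agent.H27.Two
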