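import Pool.Agent.H27.Lin.Defs

/-!
# Blocks of Frobenius numbers with at most two pairs of exceptional slopes: definitions
-/

set_option autoImplicit false

open CategoryTheory AlgebraicGeometry

universe u v

namespace Pool.Agent.H27.Two

open Pool.Agent.H914 Pool.Agent.H914.VarClass Pool.Agent.H914.VarClass.Obj
  Pool.Agent.H914.WeilCohomology Pool.Agent.Q56.FE Pool.Agent.Q56.FR Pool.Agent.H27.K3
  Pool.Agent.H27.Lin

/-- The letters of the block `b`: the pairs `(t, z)` where `t` is a type in the block `b` and `z` is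
a conjugate of `γ t`. -/
def letters {I J : Type*} (γ : I → Qb) (B : I → J) (b : J) : Set (I × Qb) :=
  {l | B l.1 = b ∧ IsConjRoot ℚ (γ l.1) l.2}

/-- The fields generated by the conjugates of the `γ t` with `t` in the block `b`, and by the
conjugates of all other `γ t`, have only totally real numbers in common. -/
def BlocksMeetInReal {I J : Type*} (γ : I → Qb) (B : I → J) : Prop :=
  ∀ b, ∀ x ∈ IntermediateField.adjoin ℚ {z | ∃ t, B t = b ∧ IsConjRoot ℚ (γ t) z},
    x ∈ IntermediateField.adjoin ℚ {z | ∃ t, B t ≠ b ∧ IsConjRoot ℚ (γ t) z} →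
      ∀ φ : Qb →+* ℂ, (φ x).im = 0

/-- In every block there are at most four letters `(t, z)` such that the slope of `z` is not
`w t / 2` (so at most two up to complex conjugation); for every `t` there is such a letter
`(t, z)`, and the widths of all of them are `c t`. -/
structure AtMostTwoPairs {I J : Type*} (lam : Qb → ℚ) (w : I → ℕ) (γ : I → Qb) (B : I → J)
    (c : I → ℚ) : Prop where
  four : ∀ b, {l ∈ letters γ B b | 2 * lam l.2 ≠ w l.1}.encard ≤ 4
  exists_ne : ∀ t, ∃ z, IsConjRoot ℚ (γ t) z ∧ 2 * lam z ≠ w t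
  width_eq : ∀ t z, IsConjRoot ℚ (γ t) z → 2 * lam z ≠ w t → width lam (w t) z = c t

/-- The exponent `κ` kills the torsion: let `x` be a product of conjugates of numbers `γ t`, and `m`
its weight, the sum of the `w t`. If the slopes of all conjugates of `x` are `m / 2`, then `κ m` is
even and `x ^ κ = q ^ (κ m / 2)`. -/
def KillsTorsion {I : Type*} (lam : Qb → ℚ) (q : ℕ) (w : I → ℕ) (γ : I → Qb) (κ : ℕ) : Prop :=
  ∀ s : List (I × Qb), (∀ l ∈ s, IsConjRoot ℚ (γ l.1) l.2) →
    (∀ g : Qb →+* Qb, 2 * lam (g (s.map Prod.snd).prod) = (s.map fun l => w l.1).sum) →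
      ∃ j, κ * (s.map fun l => w l.1).sum = 2 * j ∧ (s.map Prod.snd).prod ^ κ = (q : Qb) ^ j

/-- The list `s` of types is short: each type `t`, in the block `b`, occurs at most
`deg (γ t) / 2 * ⌊(G D + κ c t n t) / c t⌋` times, where `2 G` is the number of letters of `b`. -/
def IsShortInBlocks {I J : Type*} (γ : I → Qb) (B : I → J) (c : I → ℚ) (n : I → ℕ) (κ : ℕ) (D : ℚ)
    (s : List I) : Prop :=
  open Classical in ∀ t, 2 * s.count t ≤ (minpoly ℚ (γ t)).natDegree *
    ⌊((letters γ B (B t)).ncard / 2 * D + κ * (c t * n t)) / c t⌋₊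

/-- The lists `Y 1, …, Y n` of varieties in the classes `𝒞 (t i) (r i)` such that the list
`t 1, …, t n` of types has the property `P`. -/
def listsWith {k : Type u} [Field k] {𝒱 : VarClass k} {I : Type*} (𝒞 : I → ℕ → Set 𝒱.Obj)
    (P : List I → Prop) : Set (List 𝒱.Obj) :=
  {l | ∃ s : List (I × 𝒱.Obj), s.map Prod.snd = l ∧ (∀ u ∈ s, ∃ r, u.2 ∈ 𝒞 u.1 r) ∧
    P (s.map Prod.fst)}

end Pool.Agent.H27.Two
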