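import Pool.Agent.H27.Lin.Main
import Pool.Agent.H27.Two.Defs

/-!
# The Tate conjecture for products, from short words and blocks
-/

set_option autoImplicit false
set_option linter.unusedSectionVars false

open CategoryTheory AlgebraicGeometry

universe u v

namespace Pool.Agent.H27.Two

open Pool.Agent.H914 hiding ev wt
open Pool.Agent.H447 Pool.Agent.H914.VarClass Pool.Agent.H914.VarClass.Obj
  Pool.Agent.H914.WeilCohomology Pool.Agent.H281R3.HT Pool.Agent.W534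
  Pool.Agent.W458.RK Pool.Agent.W458.MF Pool.Agent.W536.RR Pool.Agent.Y133.Half
open Pool.Agent.Q56.FD hiding Qb labs
open Pool.Agent.Q56.FE Pool.Agent.Q56.FR Pool.Agent.H27.K3 Pool.Agent.H27.Lin

/-- lifting a decomposition of the list of images -/
lemma exists_split {α β : Type*} (f : α → β) : ∀ (L₁ : List β) (L : List α) (L₂ : List β),
    (L.map f).Perm (L₁ ++ L₂) → ∃ M₁ M₂ : List α, L.Perm (M₁ ++ M₂) ∧ M₁.map f = L₁ ∧
      (M₂.map f).Perm L₂ := by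
  intro L₁
  induction L₁ with
  | nil => exact fun L L₂ h => ⟨[], L, List.Perm.refl _, rfl, h⟩
  | cons b L₁ ih =>
    intro L L₂ h
    have hb : b ∈ L.map f := h.mem_iff.2 List.mem_cons_self
    obtain ⟨x, hx, rfl⟩ := List.mem_map.1 hb
    obtain ⟨A, C, rfl⟩ := List.append_of_mem hx
    have h1 : (A ++ x :: C).Perm (x :: (A ++ C)) := List.perm_middle
    have h2 : ((A ++ C).map f).Perm (L₁ ++ L₂) := by
      have h3 := (h1.map f).symm.trans h
      exact h3.cons_inv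
    obtain ⟨M₁, M₂, h3, h4, h5⟩ := ih (A ++ C) L₂ h2
    exact ⟨x :: M₁, M₂, h1.trans (List.Perm.cons x h3), by rw [List.map_cons, h4], h5⟩

variable {k : Type u} [Field k] {𝒱 : VarClass k} {ops : CycleOps 𝒱}

variable {W : WeilCohomology.{u, v} ops} {p : ℕ} [Fact p.Prime] {a : ℕ} {I : Type*}
  {F : FrobeniusOver W (p ^ a)} {w : I → ℕ} {γ : I → Qb} {𝒞 : I → ℕ → Set 𝒱.Obj}
  {τ : Qb →+* W.K} {Z V V' Y A B : 𝒱.Obj} {lam : Qb → ℚ} {ι : Qb →+* PadicAlgCl p}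
  {𝒮 : Set (List 𝒱.Obj)} {𝒜 : ∀ V : 𝒱.Obj, Submodule W.K (W.H V)}

lemma ev_append (L L' : List (CL F w γ 𝒞 τ V)) : ev (L ++ L') = ev L * ev L' := by
  induction L with
  | nil => rw [List.nil_append, ev_nil, one_mul]
  | cons l L ih => rw [List.cons_append, ev_cons, ev_cons, ih, mul_assoc]

lemma tw_append (L L' : List (CL F w γ 𝒞 τ V)) : tw (L ++ L') = tw L + tw L' := by
  rw [tw, tw, tw, List.map_append, List.sum_append]

lemma wt_append (L L' : List (CL F w γ 𝒞 τ V)) : wt (L ++ L') = wt L + wt L' := by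
  rw [wt, wt, wt, List.map_append, List.sum_append]

/-- The list of numbers is exact: the product is a power of `q`. -/
def IsExact (q : ℕ) (w : I → ℕ) (i : ℕ) (β : Qb) (L : List (I × Qb)) : Prop :=
  ∃ j : ℕ, β * (L.map Prod.snd).prod = (q : Qb) ^ j ∧ i + (L.map fun l => w l.1).sum = 2 * j

/-- **Words of weight zero are generated by short words.** -/
theorem word_alg2 (h𝒜 : Good 𝒜) (hw : ∀ t, IsWeil (p ^ a) (w t) (γ t))
    (hne : ∀ t, γ t ^ 2 ≠ ((p ^ a : ℕ) : Qb) ^ w t)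
    (hpair : ∀ t r r', ∀ Y ∈ 𝒞 t r, ∀ Y' ∈ 𝒞 t r',
      genEig F (Y.prod Y') (w t + r + r') ≤ 𝒜 (Y.prod Y'))
    (hT : ∀ l ∈ 𝒮, ∀ j, genEig F (prodL Z l) j ≤ 𝒜 (prodL Z l)) (f : V ⟶ Z) {i : ℕ} {β : Qb}
    {x : W.H Z} (hx : x ∈ W.gr Z i) (hxg : x ∈ (fr F Z).maxGenEigenspace (τ β))
    (hsplit : ∀ (L : List (CL F w γ 𝒞 τ V)), IsExact (p ^ a) w i β (labs L) →
      NoDual (p ^ a) w (labs L) → L.map CL.Y ∈ 𝒮 ∨ ∃ L₁ L₂ : List (CL F w γ 𝒞 τ V),
        L.Perm (L₁ ++ L₂) ∧ L₁ ≠ [] ∧ IsExact (p ^ a) w 0 1 (labs L₁) ∧ L₁.map CL.Y ∈ 𝒮) :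
    ∀ (n : ℕ) (L : List (CL F w γ 𝒞 τ V)), L.length ≤ n →
      (∃ j : ℕ, β * ev L * ((p ^ a : ℕ) : Qb) ^ tw L = ((p ^ a : ℕ) : Qb) ^ j ∧
        i + wt L + 2 * tw L = 2 * j) → W.map f x * word L ∈ 𝒜 V := by
  classical
  have hq : 0 < p ^ a := pow_pos (Fact.out : p.Prime).pos a
  have hq0 : ((p ^ a : ℕ) : Qb) ≠ 0 := qb_ne p a
  intro n
  induction n with
  | zero =>
    intro L hL hex
    obtain rfl : L = [] := List.length_eq_zero_iff.1 (Nat.le_zero.1 hL)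
    obtain ⟨g, f', L', hf, hLL⟩ := exists_pull f ([] : List (CL F w γ 𝒞 τ V))
    have hex' : IsExact (p ^ a) w i β (labs ([] : List (CL F w γ 𝒞 τ V))) := by
      obtain ⟨j, hj1, hj2⟩ := hex
      refine ⟨j, ?_, ?_⟩
      · rw [ev_nil, tw, List.map_nil, List.sum_nil, pow_zero, mul_one] at hj1
        exact hj1
      · exact hj2
    rcases hsplit [] hex' (fun l hl => absurd hl List.not_mem_nil) with h | ⟨L₁, L₂, h1, h2, -, -⟩
    · exact word_of_pull h𝒜 (hT _ h) hf hLL hx hxg hex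
    · exact absurd (List.append_eq_nil_iff.1 (List.nil_perm.1 h1)).1 h2
  | succ n ih =>
    intro L hL hex
    by_cases hnd : NoDual (p ^ a) w (labs L)
    · have hex' : IsExact (p ^ a) w i β (labs L) := by
        obtain ⟨j, hj1, hj2⟩ := hex
        refine ⟨j - tw L, ?_, ?_⟩
        · apply mul_right_cancel₀ (pow_ne_zero (tw L) hq0)
          rw [← pow_add, Nat.sub_add_cancel (by omega)]
          exact hj1
        · rw [wt_eq]
          omega
      rcases hsplit L hex' hnd with h | ⟨L₁, L₂, hperm, hL₁, hex₁, hS⟩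
      · obtain ⟨g, f', L', hf, hLL⟩ := exists_pull f L
        exact word_of_pull h𝒜 (hT _ h) hf hLL hx hxg hex
      · obtain ⟨j, hj1, hj2⟩ := hex
        obtain ⟨j₁, h1, h2⟩ := hex₁
        rw [one_mul] at h1
        rw [wt_eq, zero_add] at h2
        change ev L₁ = _ at h1
        obtain ⟨g, f', L', hf, hLL⟩ := exists_pull f L₁
        have hone : (1 : W.H Z) ∈ (fr F Z).maxGenEigenspace (τ 1) := by
          apply eig_mem_gen
          rw [τ.map_one, one_smul]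
          exact map_one (W.map (F.Fr Z))
        have hblock : word L₁ ∈ 𝒜 V := by
          have h3 := word_of_pull (β := 1) (i := 0) h𝒜 (hT _ hS) hf hLL (W.one_mem Z) hone
            ⟨j₁ + tw L₁, by rw [one_mul, h1, pow_add], by omega⟩
          rwa [map_one, one_mul] at h3
        obtain ⟨c, hc⟩ := word_perm hperm
        have e1 := ev_perm hperm
        have e2 := tw_perm hperm
        have e3 := wt_perm hperm
        rw [ev_append] at e1
        rw [tw_append] at e2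
        rw [wt_append] at e3
        rw [hc, word_append, mul_smul_comm]
        refine Submodule.smul_mem _ _ ?_
        rw [← mul_assoc, ← h𝒜.comm _ _ hblock, mul_assoc]
        refine h𝒜.mul _ _ hblock _ (ih L₂ ?_ ⟨j - j₁ - tw L₁, ?_, by omega⟩)
        · have h3 := hperm.length_eq
          rw [List.length_append] at h3
          have h4 : 0 < L₁.length := List.length_pos_iff.2 hL₁
          omega
        · apply mul_right_cancel₀ (pow_ne_zero (j₁ + tw L₁) hq0)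
          rw [← pow_add, show j - j₁ - tw L₁ + (j₁ + tw L₁) = j by omega, ← hj1, e1, e2, h1,
            pow_add, pow_add]
          ring
    obtain ⟨j, hj1, hj2⟩ := hex
    unfold NoDual at hnd
    push Not at hnd
    obtain ⟨u, hu, hdual⟩ := hnd
    obtain ⟨l, hl, rfl⟩ := List.mem_map.1 hu
    change (l.t, ((p ^ a : ℕ) : Qb) ^ w l.t / l.z) ∈ labs L at hdual
    obtain ⟨L₁, L₂, rfl⟩ := List.append_of_mem hl
    have hperm0 : (L₁ ++ l :: L₂).Perm (l :: (L₁ ++ L₂)) := List.perm_middle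
    have hz0 : l.z ≠ 0 := ((hw l.t).conj l.hz).ne_zero hq
    have hnot : (l.t, ((p ^ a : ℕ) : Qb) ^ w l.t / l.z) ≠ l.lab := by
      intro h
      have h1 : ((p ^ a : ℕ) : Qb) ^ w l.t / l.z = l.z := congrArg Prod.snd h
      rw [div_eq_iff hz0] at h1
      apply hne l.t
      obtain ⟨σ, hσ⟩ := isConjRoot_iff_exists_algEquiv.1 l.hz
      rw [← hσ, ← map_pow, sq, ← h1, map_pow, map_natCast]
    have hdual' : (l.t, ((p ^ a : ℕ) : Qb) ^ w l.t / l.z) ∈ labs (L₁ ++ L₂) := by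
      have h1 : (l.t, ((p ^ a : ℕ) : Qb) ^ w l.t / l.z) ∈ labs (l :: (L₁ ++ L₂)) :=
        (hperm0.map CL.lab).mem_iff.1 hdual
      rw [labs, List.map_cons, List.mem_cons] at h1
      exact h1.resolve_left hnot
    obtain ⟨l', hl', hlab⟩ := List.mem_map.1 hdual'
    have ht : l'.t = l.t := congrArg Prod.fst hlab
    have hz : l'.z = ((p ^ a : ℕ) : Qb) ^ w l.t / l.z := congrArg Prod.snd hlab
    obtain ⟨L₃, L₄, hL'⟩ := List.append_of_mem hl'
    have hperm : (L₁ ++ l :: L₂).Perm (l :: l' :: (L₃ ++ L₄)) := by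
      refine hperm0.trans ?_
      rw [hL']
      exact List.Perm.cons l List.perm_middle
    obtain ⟨c, hc⟩ := word_perm hperm
    have hblock := pair_alg h𝒜 hpair hw ht hz
    rw [hc, word_cons, word_cons, mul_smul_comm]
    refine Submodule.smul_mem _ _ ?_
    rw [← mul_assoc l.val, ← mul_assoc, ← h𝒜.comm _ _ hblock, mul_assoc]
    refine h𝒜.mul _ _ hblock _ (ih (L₃ ++ L₄) ?_ ?_)
    · have h1 := hperm.length_eq
      rw [List.length_cons, List.length_cons] at h1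
      omega
    · have h1 : ev (L₁ ++ l :: L₂) = l.z * (l'.z * ev (L₃ ++ L₄)) := by
        rw [ev_perm hperm, ev_cons, ev_cons]
      have h2 : tw (L₁ ++ l :: L₂) = l.r + (l'.r + tw (L₃ ++ L₄)) := by
        rw [tw_perm hperm, tw_cons, tw_cons]
      have h3 : wt (L₁ ++ l :: L₂) = w l.t + (w l.t + wt (L₃ ++ L₄)) := by
        rw [wt_perm hperm, wt_cons, wt_cons, ht]
      have hjle : w l.t + l.r + l'.r ≤ j := by omega
      refine ⟨j - (w l.t + l.r + l'.r), ?_, by omega⟩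
      apply mul_right_cancel₀ (pow_ne_zero (w l.t + l.r + l'.r) hq0)
      rw [← pow_add, Nat.sub_add_cancel hjle, ← hj1, h1, h2, hz, pow_add, pow_add, pow_add,
        pow_add]
      field_simp

/-- The generalised Tate classes of the products are generated. -/
theorem gen_prod2 [IsAlgClosed W.K] (h𝒜 : Good 𝒜) (ha : 0 < a)
    (hw : ∀ t, IsWeil (p ^ a) (w t) (γ t))
    (hne : ∀ t, γ t ^ 2 ≠ ((p ^ a : ℕ) : Qb) ^ w t) (hZ : HasWeights F τ Z)
    (h𝒞 : ∀ t r, ∀ Y ∈ 𝒞 t r, IsGenerated F τ w γ 𝒞 Y)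
    (hpair : ∀ t r r', ∀ Y ∈ 𝒞 t r, ∀ Y' ∈ 𝒞 t r',
      genEig F (Y.prod Y') (w t + r + r') ≤ 𝒜 (Y.prod Y'))
    (hT : ∀ l ∈ 𝒮, ∀ j, genEig F (prodL Z l) j ≤ 𝒜 (prodL Z l))
    (hsplit : ∀ (i : ℕ) (β : Qb), IsWeil (p ^ a) i β → (∃ x ∈ genPart F Z (τ β) i, x ≠ 0) →
      ∀ (V : 𝒱.Obj) (L : List (CL F w γ 𝒞 τ V)), IsExact (p ^ a) w i β (labs L) →
      NoDual (p ^ a) w (labs L) → L.map CL.Y ∈ 𝒮 ∨ ∃ L₁ L₂ : List (CL F w γ 𝒞 τ V),
        L.Perm (L₁ ++ L₂) ∧ L₁ ≠ [] ∧ IsExact (p ^ a) w 0 1 (labs L₁) ∧ L₁.map CL.Y ∈ 𝒮)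
    (l : List 𝒱.Obj) (hl : ∀ Y ∈ l, ∃ t r, Y ∈ 𝒞 t r) (j : ℕ) :
    genEig F (prodL Z l) j ≤ 𝒜 (prodL Z l) := by
  have hq0 : ((p ^ a : ℕ) : Qb) ≠ 0 := qb_ne p a
  intro x hx
  have hspan := RW_prodL hZ h𝒞 l hl x
  have hword : ∀ (n : ℕ) (c : W.H (prodL Z l)) (f : prodL Z l ⟶ Z) (β : Qb) (z : W.H Z)
      (L : List (CL F w γ 𝒞 τ (prodL Z l))), c ∈ spanCycles W (prodL Z l) n →
      z ∈ (fr F Z).maxGenEigenspace (τ β) → c * (W.map f z * word L) ∈
        (fr F (prodL Z l)).maxGenEigenspace (τ (((p ^ a : ℕ) : Qb) ^ n *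
          (β * (ev L * ((p ^ a : ℕ) : Qb) ^ tw L)))) := by
    intro n c f β z L hc hz
    have h1 : W.map f z * word L ∈ (fr F (prodL Z l)).maxGenEigenspace
        (τ β * τ (ev L * ((p ^ a : ℕ) : Qb) ^ tw L)) :=
      gen_bilin (β := LinearMap.mul W.K (W.H _)) (fun x y =>
        (map_mul (W.map (F.Fr _)) x y).symm) (gen_pull f hz) (word_gen L)
    have h2 : c * (W.map f z * word L) ∈ (fr F (prodL Z l)).maxGenEigenspace
        (((p ^ a : ℕ) : W.K) ^ n * (τ β * τ (ev L * ((p ^ a : ℕ) : Qb) ^ tw L))) :=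
      gen_bilin (β := LinearMap.mul W.K (W.H _)) (fun x y =>
        (map_mul (W.map (F.Fr _)) x y).symm) (cyc_eig hc) h1
    rw [map_mul τ (((p ^ a : ℕ) : Qb) ^ n), map_mul τ β, map_pow, map_natCast]
    exact h2
  have hgen : ∀ v ∈ RW F w γ 𝒞 τ Z (prodL Z l),
      ∃ μ, v ∈ (fr F (prodL Z l)).maxGenEigenspace μ := by
    rintro v ⟨n, c, f, i, β, z, L, hc, hβ, hz, hzg, rfl⟩
    exact ⟨_, hword n c f β z L hc hzg⟩
  have h3 := mem_span_gen (T := fr F (prodL Z l)) hgen hspan hx.1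
  refine (Submodule.span_le (p := 𝒜 (prodL Z l))).2 ?_ h3
  rintro v ⟨⟨n, c, f, i, β, z, L, hc, hβ, hz, hzg, rfl⟩, hvμ⟩
  by_cases hv0 : c * (W.map f z * word L) = 0
  · rw [hv0]
    exact Submodule.zero_mem _
  have hz0 : z ≠ 0 := by
    rintro rfl
    apply hv0
    rw [map_zero, zero_mul, mul_zero]
  have h4 := eq_of_mem_gen (hword n c f β z L hc hzg) hvμ hv0
  have h5 : ((p ^ a : ℕ) : Qb) ^ n * (β * (ev L * ((p ^ a : ℕ) : Qb) ^ tw L)) =
      ((p ^ a : ℕ) : Qb) ^ j := by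
    apply τ.injective
    rw [h4, map_pow, map_natCast]
  -- the weights
  have h6 : i + wt L + 2 * tw L + 2 * n = 2 * j := by
    obtain ⟨φ⟩ := exists_cpx
    have h6 := congrArg (fun z => ‖φ z‖ ^ 2) h5
    have h7 : ‖φ ((p ^ a : ℕ) : Qb)‖ = ((p ^ a : ℕ) : ℝ) := by
      rw [map_natCast, Complex.norm_natCast]
    simp only [map_mul, map_pow φ, norm_mul, norm_pow, mul_pow, h7] at h6
    rw [hβ φ, ev_norm_sq hw] at h6
    have h8 : ((p ^ a : ℕ) : ℝ) ^ (i + wt L + 2 * tw L + 2 * n) = ((p ^ a : ℕ) : ℝ) ^ (2 * j) := by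
      calc ((p ^ a : ℕ) : ℝ) ^ (i + wt L + 2 * tw L + 2 * n) = _ := by
            rw [pow_add, pow_add, pow_add]
        _ = (((p ^ a : ℕ) : ℝ) ^ n) ^ 2 * (((p ^ a : ℕ) : ℝ) ^ i * (((p ^ a : ℕ) : ℝ) ^ wt L *
            (((p ^ a : ℕ) : ℝ) ^ tw L) ^ 2)) := by ring
        _ = _ := h6
        _ = _ := by ring
    exact (pow_right_injective₀ (q_pos (p := p) (e := a)) (q_gt ha).ne') h8
  refine h𝒜.mul _ _ (h𝒜.alg _ (cyc_alg hc)) _ ?_
  refine word_alg2 h𝒜 hw hne hpair hT f hz hzg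
    (fun L hex hnd => hsplit i β hβ ⟨z, ⟨hzg, hz⟩, hz0⟩ _ L hex hnd)
    L.length L le_rfl ⟨j - n, ?_, by omega⟩
  apply mul_right_cancel₀ (pow_ne_zero n hq0)
  rw [← pow_add, Nat.sub_add_cancel (by omega), ← h5]
  ring

/-- **The Tate conjecture from short words**, abstract version: every exact word without dual pairs
is short, or contains a short exact word. -/
theorem tateFrom [IsAlgClosed W.K] (ha : 0 < a) (hw : ∀ t, IsWeil (p ^ a) (w t) (γ t))
    (hne : ∀ t, γ t ^ 2 ≠ ((p ^ a : ℕ) : Qb) ^ w t) (hZ : HasWeights F τ Z)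
    (h𝒞 : ∀ t r, ∀ Y ∈ 𝒞 t r, IsGenerated F τ w γ 𝒞 Y) (P : List I → Prop)
    (hsplit : ∀ (i : ℕ) (β : Qb), IsWeil (p ^ a) i β → (∃ x ∈ genPart F Z (τ β) i, x ≠ 0) →
      ∀ L : List (I × Qb), (∀ l ∈ L, IsConjRoot ℚ (γ l.1) l.2) → IsExact (p ^ a) w i β L →
      NoDual (p ^ a) w L → P (L.map Prod.fst) ∨ ∃ L₁ L₂ : List (I × Qb),
        L.Perm (L₁ ++ L₂) ∧ L₁ ≠ [] ∧ IsExact (p ^ a) w 0 1 L₁ ∧ P (L₁.map Prod.fst)) :
    TateFromShort F w 𝒞 (listsWith 𝒞 P) Z := by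
  have hmem : ∀ (V : 𝒱.Obj) (L : List (CL F w γ 𝒞 τ V)), P ((labs L).map Prod.fst) →
      L.map CL.Y ∈ listsWith 𝒞 P := by
    intro V L h
    refine ⟨L.map fun l => (l.t, l.Y), ?_, ?_, ?_⟩
    · rw [List.map_map]
      rfl
    · intro u hu
      obtain ⟨l, _, rfl⟩ := List.mem_map.1 hu
      exact ⟨l.r, l.hY⟩
    · rw [List.map_map]
      have h1 : L.map (Prod.fst ∘ fun l => (l.t, l.Y)) = (labs L).map Prod.fst := by
        rw [labs, List.map_map]
        rfl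
      rw [h1]
      exact h
  have hs : ∀ (i : ℕ) (β : Qb), IsWeil (p ^ a) i β → (∃ x ∈ genPart F Z (τ β) i, x ≠ 0) →
      ∀ (V : 𝒱.Obj) (L : List (CL F w γ 𝒞 τ V)), IsExact (p ^ a) w i β (labs L) →
      NoDual (p ^ a) w (labs L) → L.map CL.Y ∈ listsWith 𝒞 P ∨
        ∃ L₁ L₂ : List (CL F w γ 𝒞 τ V), L.Perm (L₁ ++ L₂) ∧ L₁ ≠ [] ∧
          IsExact (p ^ a) w 0 1 (labs L₁) ∧ L₁.map CL.Y ∈ listsWith 𝒞 P := by
    intro i β hβ hx V L hex hnd
    rcases hsplit i β hβ hx (labs L) (by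
      intro l hl
      obtain ⟨l', _, rfl⟩ := List.mem_map.1 hl
      exact l'.hz) hex hnd with h | ⟨L₁, L₂, hperm, h1, h2, h3⟩
    · exact Or.inl (hmem V L h)
    · obtain ⟨M₁, M₂, h4, h5, -⟩ := exists_split CL.lab L₁ L L₂ hperm
      have h6 : labs M₁ = L₁ := h5
      refine Or.inr ⟨M₁, M₂, h4, ?_, ?_, hmem V M₁ ?_⟩
      · rintro rfl
        exact h1 h5.symm
      · rw [h6]
        exact h2
      · rw [h6]
        exact h3
  intro l hl
  refine ⟨fun j => gen_prod2 (F := F) (Z := Z) (𝒮 := listsWith 𝒞 P) good_short ha hw hne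
    hZ h𝒞 ?_ ?_ hs l hl j, fun hT hpair => ?_⟩
  · intro t r r' Y hY Y' hY' x hx
    exact Algebra.subset_adjoin (Or.inr ⟨t, r, r', Y, hY, Y', hY', 𝟙 _, x, hx, W.map_id _ x⟩)
  · intro l hl j x hx
    exact Algebra.subset_adjoin (Or.inl (Or.inr ⟨l, hl, 𝟙 _, j, x, hx, W.map_id _ x⟩))
  · have h : ∀ j, TateHolds F (prodL Z l) j := fun j => holds_iff.2
      (gen_prod2 (F := F) (Z := Z) (𝒮 := listsWith 𝒞 P) good_algSpan ha hw hne hZ h𝒞
        (fun t r r' Y hY Y' hY' => holds_iff.1 (hpair t r r' Y hY Y' hY'))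
        (fun l hl j => holds_iff.1 (hT l hl j)) hs l hl j)
    exact fun j => ⟨h j, full_of_strong ha (fun j => holds_iff_strong.1 (h j)) j⟩

end Pool.Agent.H27.Two
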