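import Pool.Agent.H27.Two.Signs

/-!
# Blocks: the combinatorics of the relations
-/

set_option autoImplicit false
set_option linter.unusedSectionVars false

namespace Pool.Agent.H27.Two

open Pool.Agent.Q56.FD hiding Qb
open Pool.Agent.H27.K3 Pool.Agent.H27.Lin IntermediateField

/-- an increasing sequence of subsets is not strictly increasing -/
lemma exists_stable {α : Type*} (P : ℕ → Finset α) (S : Finset α)
    (hmono : ∀ m, P m ⊆ P (m + 1)) (hS : ∀ m, P m ⊆ S) (h0 : (P 0).Nonempty) :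
    ∃ m < S.card, P m = P (m + 1) := by
  by_contra hcon
  push Not at hcon
  have h1 : ∀ m ≤ S.card, m + 1 ≤ (P m).card := by
    intro m
    induction m with
    | zero => intro _; exact Finset.card_pos.2 h0
    | succ m ih =>
      intro hm
      have h2 := ih (by omega)
      have h3 : P m ⊂ P (m + 1) := (hmono m).ssubset_of_ne (hcon m (by omega))
      have h4 := Finset.card_lt_card h3
      omega
  have h2 := h1 S.card le_rfl
  have h3 := Finset.card_le_card (hS S.card)
  omega

/-- a set of letters which is stable under the relations -/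
lemma exists_stable_set {α : Type*} [DecidableEq α] (V : Finset α) (A : α → ℚ) (bar : α → α)
    (hA : ∀ v, A (bar v) = - A v) (hV : ∀ v ∈ V, bar v ∈ V) (hbb : ∀ v, bar (bar v) = v)
    {D E : ℚ} (hD : 0 ≤ D) (hE : 0 ≤ E) {v0 : α} (hv0 : v0 ∈ V)
    (hM : (V.card : ℚ) / 2 * D + E < A v0) :
    ∃ P ⊆ V, P.Nonempty ∧ (∀ v ∈ P, D + E < A v) ∧
      ∀ u ∈ V, ∀ v ∈ V, |A u + A v| ≤ D → u ∈ P → bar v ∈ P := by
  classical
  let P : ℕ → Finset α := fun m => V.filter fun v => A v0 - m * D ≤ A v ∧ 0 < A v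
  let S : Finset α := V.filter fun v => 0 < A v
  have hcard : (S.card : ℚ) ≤ (V.card : ℚ) / 2 := by
    have h1 : (S.image bar).card = S.card := Finset.card_image_of_injective _ (by
      intro u v huv
      have h2 := congrArg bar huv
      rwa [hbb, hbb] at h2)
    have h2 : Disjoint S (S.image bar) := by
      rw [Finset.disjoint_left]
      intro v hv hv'
      obtain ⟨u, hu, rfl⟩ := Finset.mem_image.1 hv'
      have h3 := (Finset.mem_filter.1 hv).2
      have h4 := (Finset.mem_filter.1 hu).2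
      rw [hA] at h3
      linarith
    have h3 : S ∪ S.image bar ⊆ V := by
      refine Finset.union_subset (Finset.filter_subset _ _) ?_
      intro v hv
      obtain ⟨u, hu, rfl⟩ := Finset.mem_image.1 hv
      exact hV u (Finset.mem_filter.1 hu).1
    have h4 := Finset.card_le_card h3
    rw [Finset.card_union_of_disjoint h2, h1] at h4
    have h5 : ((S.card + S.card : ℕ) : ℚ) ≤ V.card := by exact_mod_cast h4
    push_cast at h5
    linarith
  have hA0 : 0 < A v0 := lt_of_le_of_lt (add_nonneg (mul_nonneg (by positivity) hD) hE) hM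
  obtain ⟨m, hm, hPm⟩ := exists_stable P S
    (fun m v hv => by
      rw [Finset.mem_filter] at hv ⊢
      refine ⟨hv.1, le_trans ?_ hv.2.1, hv.2.2⟩
      push_cast
      nlinarith)
    (fun m v hv => by
      rw [Finset.mem_filter] at hv ⊢
      exact ⟨hv.1, hv.2.2⟩)
    ⟨v0, Finset.mem_filter.2 ⟨hv0, by simp, hA0⟩⟩
  have hm' : (m : ℚ) + 1 ≤ (V.card : ℚ) / 2 := by
    have h1 : ((m + 1 : ℕ) : ℚ) ≤ S.card := by exact_mod_cast hm
    push_cast at h1
    linarith
  have hbig : ∀ v ∈ P m, D + E < A v := by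
    intro v hv
    have h1 := (Finset.mem_filter.1 hv).2.1
    nlinarith
  refine ⟨P m, Finset.filter_subset _ _, ⟨v0, Finset.mem_filter.2 ⟨hv0, ?_, hA0⟩⟩, hbig, ?_⟩
  · have : 0 ≤ (m : ℚ) * D := by positivity
    linarith
  · intro u hu v hv huv hP
    have h1 := hbig u hP
    have h2 := (abs_le.1 huv).2
    rw [hPm, Finset.mem_filter]
    refine ⟨hV v hv, ?_, ?_⟩
    · rw [hA]
      have h3 := (Finset.mem_filter.1 hP).2.1
      push_cast
      linarith
    · rw [hA]
      linarith

section Words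

variable {I J : Type*} [DecidableEq I] [DecidableEq J] {q : ℕ} {lam : Qb → ℚ} {w : I → ℕ}
  {γ : I → Qb} {B : I → J}

/-- the dual letter -/
noncomputable def bar (q : ℕ) (w : I → ℕ) (l : I × Qb) : I × Qb := (l.1, (q : Qb) ^ w l.1 / l.2)

/-- the image of a letter -/
noncomputable def app (g : Qb ≃ₐ[ℚ] Qb) (l : I × Qb) : I × Qb := (l.1, g l.2)

/-- the deviation of the slope of a letter -/
def dev (lam : Qb → ℚ) (w : I → ℕ) (l : I × Qb) : ℚ := 2 * lam l.2 - w l.1

lemma bar_bar (hq : 0 < q) (l : I × Qb) : bar q w (bar q w l) = l := by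
  have hq0 : ((q : Qb) ^ w l.1) ≠ 0 := pow_ne_zero _ (by exact_mod_cast hq.ne')
  exact Prod.ext rfl (div_div_cancel₀ hq0)

lemma conj_app {l : I × Qb} (hl : IsConjRoot ℚ (γ l.1) l.2) (g : Qb ≃ₐ[ℚ] Qb) :
    IsConjRoot ℚ (γ (app g l).1) (app g l).2 := hl.trans (isConjRoot_of_algEquiv l.2 g)

lemma conj_bar (hq : 0 < q) (hw : ∀ t, IsWeil q (w t) (γ t)) {l : I × Qb}
    (hl : IsConjRoot ℚ (γ l.1) l.2) : IsConjRoot ℚ (γ (bar q w l).1) (bar q w l).2 :=
  hl.trans (((hw l.1).conj hl).dual hq)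

lemma ind_eq (l : I × Qb) (t : I) (ζ : Qb) (g : Qb ≃ₐ[ℚ] Qb) : ind q w l t ζ g =
    open Classical in (if app g l = (t, ζ) then 1 else 0) -
      (if app g l = bar q w (t, ζ) then 1 else 0) := by
  classical
  have h1 : ∀ ζ', (l.1 = t ∧ g l.2 = ζ') ↔ app g l = (t, ζ') := by
    intro ζ'
    rw [Prod.ext_iff]
    rfl
  rw [ind]
  simp only [h1]
  rfl

/-- the contribution of a letter to the slopes, two pairs of exceptional letters -/
lemma dev_app_two (hq : 0 < q) (hdual : ∀ l : I × Qb, IsConjRoot ℚ (γ l.1) l.2 →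
      dev lam w (bar q w l) = - dev lam w l) {b : J} {x y : I × Qb}
    (hx : IsConjRoot ℚ (γ x.1) x.2) (hy : IsConjRoot ℚ (γ y.1) y.2)
    (hxb : B x.1 = b) (hyb : B y.1 = b) (hx0 : dev lam w x ≠ 0) (hy0 : dev lam w y ≠ 0)
    (hyx : y ≠ x) (hyx' : y ≠ bar q w x)
    (hall : ∀ l : I × Qb, B l.1 = b → IsConjRoot ℚ (γ l.1) l.2 → dev lam w l ≠ 0 →
      l = x ∨ l = bar q w x ∨ l = y ∨ l = bar q w y)
    {l : I × Qb} (hl : IsConjRoot ℚ (γ l.1) l.2) (g : Qb ≃ₐ[ℚ] Qb) :
    (if B l.1 = b then dev lam w (app g l) else 0) =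
      dev lam w x * ind q w l x.1 x.2 g + dev lam w y * ind q w l y.1 y.2 g := by
  classical
  rw [ind_eq, ind_eq]
  simp only [Prod.mk.eta]
  have hne : ∀ u : I × Qb, IsConjRoot ℚ (γ u.1) u.2 → dev lam w u ≠ 0 → u ≠ bar q w u := by
    intro u hu h0 h
    have h1 := hdual u hu
    rw [← h] at h1
    apply h0
    linarith
  have hxx := hne x hx hx0
  have hyy := hne y hy hy0
  have hbarne : ∀ u v : I × Qb, u ≠ bar q w v → v ≠ bar q w u := by
    intro u v h h'
    apply h
    rw [h', bar_bar hq]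
  have hbb : bar q w y ≠ bar q w x := fun h => hyx (by
    rw [← bar_bar (w := w) hq y, h, bar_bar hq])
  have hu : IsConjRoot ℚ (γ (app g l).1) (app g l).2 := conj_app hl g
  have hB : B (app g l).1 = B l.1 := rfl
  generalize app g l = u at hu hB ⊢
  rw [← hB]
  by_cases h1 : u = x
  · subst h1
    rw [if_pos hxb, if_pos rfl, if_neg hxx, if_neg hyx.symm, if_neg (hbarne _ _ hyx')]
    ring
  by_cases h2 : u = bar q w x
  · subst h2
    rw [if_pos (show B (bar q w x).1 = b from hxb), if_neg hxx.symm, if_pos rfl,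
      if_neg hyx'.symm, if_neg hbb.symm, hdual x hx]
    ring
  by_cases h3 : u = y
  · subst h3
    rw [if_pos hyb, if_neg hyx, if_neg hyx', if_pos rfl, if_neg hyy]
    ring
  by_cases h4 : u = bar q w y
  · subst h4
    rw [if_pos (show B (bar q w y).1 = b from hyb), if_neg h1, if_neg h2, if_neg hyy.symm,
      if_pos rfl, hdual y hy]
    ring
  rw [if_neg h1, if_neg h2, if_neg h3, if_neg h4]
  by_cases h5 : B u.1 = b
  · rw [if_pos h5]
    by_contra h6
    rcases hall u h5 hu (fun h => h6 (by rw [h]; ring)) with h | h | h | h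
    · exact h1 h
    · exact h2 h
    · exact h3 h
    · exact h4 h
  · rw [if_neg h5]
    ring

/-- the contribution of a letter to the slopes, one pair of exceptional letters -/
lemma dev_app_one (hq : 0 < q) (hdual : ∀ l : I × Qb, IsConjRoot ℚ (γ l.1) l.2 →
      dev lam w (bar q w l) = - dev lam w l) {b : J} {x : I × Qb}
    (hx : IsConjRoot ℚ (γ x.1) x.2) (hxb : B x.1 = b) (hx0 : dev lam w x ≠ 0)
    (hall : ∀ l : I × Qb, B l.1 = b → IsConjRoot ℚ (γ l.1) l.2 → dev lam w l ≠ 0 →
      l = x ∨ l = bar q w x)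
    {l : I × Qb} (hl : IsConjRoot ℚ (γ l.1) l.2) (g : Qb ≃ₐ[ℚ] Qb) :
    (if B l.1 = b then dev lam w (app g l) else 0) = dev lam w x * ind q w l x.1 x.2 g := by
  classical
  rw [ind_eq]
  simp only [Prod.mk.eta]
  have hxx : x ≠ bar q w x := by
    intro h
    have h1 := hdual x hx
    rw [← h] at h1
    apply hx0
    linarith
  have hu : IsConjRoot ℚ (γ (app g l).1) (app g l).2 := conj_app hl g
  have hB : B (app g l).1 = B l.1 := rfl
  generalize app g l = u at hu hB ⊢
  rw [← hB]
  by_cases h1 : u = x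
  · subst h1
    rw [if_pos hxb, if_pos rfl, if_neg hxx]
    ring
  by_cases h2 : u = bar q w x
  · subst h2
    rw [if_pos (show B (bar q w x).1 = b from hxb), if_neg hxx.symm, if_pos rfl, hdual x hx]
    ring
  rw [if_neg h1, if_neg h2]
  by_cases h5 : B u.1 = b
  · rw [if_pos h5]
    by_contra h6
    rcases hall u h5 hu (fun h => h6 (by rw [h]; ring)) with h | h
    · exact h1 h
    · exact h2 h
  · rw [if_neg h5]
    ring

lemma slopeSum_eq (L : List (I × Qb)) (b : J) (g : Qb ≃ₐ[ℚ] Qb) : slopeSum lam w B b L g =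
    (L.map fun l => if B l.1 = b then dev lam w (app g l) else 0).sum := rfl

lemma slopeSum_two (hq : 0 < q) (hdual : ∀ l : I × Qb, IsConjRoot ℚ (γ l.1) l.2 →
      dev lam w (bar q w l) = - dev lam w l) {b : J} {x y : I × Qb}
    (hx : IsConjRoot ℚ (γ x.1) x.2) (hy : IsConjRoot ℚ (γ y.1) y.2)
    (hxb : B x.1 = b) (hyb : B y.1 = b) (hx0 : dev lam w x ≠ 0) (hy0 : dev lam w y ≠ 0)
    (hyx : y ≠ x) (hyx' : y ≠ bar q w x)
    (hall : ∀ l : I × Qb, B l.1 = b → IsConjRoot ℚ (γ l.1) l.2 → dev lam w l ≠ 0 →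
      l = x ∨ l = bar q w x ∨ l = y ∨ l = bar q w y)
    {L : List (I × Qb)} (hL : ∀ l ∈ L, IsConjRoot ℚ (γ l.1) l.2) (g : Qb ≃ₐ[ℚ] Qb) :
    slopeSum lam w B b L g =
      dev lam w x * cnt q w L x.1 (g.symm x.2) AlgEquiv.refl +
        dev lam w y * cnt q w L y.1 (g.symm y.2) AlgEquiv.refl := by
  rw [← cnt_symm, ← cnt_symm, slopeSum_eq]
  induction L with
  | nil => simp [cnt]
  | cons l L ih =>
    rw [List.map_cons, List.sum_cons, ih fun l' hl' => hL l' (List.mem_cons_of_mem _ hl'),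
      dev_app_two hq hdual hx hy hxb hyb hx0 hy0 hyx hyx' hall (hL l List.mem_cons_self),
      cnt_cons, cnt_cons]
    ring

lemma slopeSum_one (hq : 0 < q) (hdual : ∀ l : I × Qb, IsConjRoot ℚ (γ l.1) l.2 →
      dev lam w (bar q w l) = - dev lam w l) {b : J} {x : I × Qb}
    (hx : IsConjRoot ℚ (γ x.1) x.2) (hxb : B x.1 = b) (hx0 : dev lam w x ≠ 0)
    (hall : ∀ l : I × Qb, B l.1 = b → IsConjRoot ℚ (γ l.1) l.2 → dev lam w l ≠ 0 →
      l = x ∨ l = bar q w x)
    {L : List (I × Qb)} (hL : ∀ l ∈ L, IsConjRoot ℚ (γ l.1) l.2) (g : Qb ≃ₐ[ℚ] Qb) :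
    slopeSum lam w B b L g = dev lam w x * cnt q w L x.1 (g.symm x.2) AlgEquiv.refl := by
  rw [← cnt_symm, slopeSum_eq]
  induction L with
  | nil => simp [cnt]
  | cons l L ih =>
    rw [List.map_cons, List.sum_cons, ih fun l' hl' => hL l' (List.mem_cons_of_mem _ hl'),
      dev_app_one hq hdual hx hxb hx0 hall (hL l List.mem_cons_self), cnt_cons]
    ring

/-! ### The words of sets of letters -/

/-- the list which contains each letter `v` of the set `n v.1` times -/
noncomputable def pwd (P : Finset (I × Qb)) (n : I → ℕ) : List (I × Qb) :=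
  P.toList.flatMap fun v => List.replicate (n v.1) v

lemma mem_pwd {P : Finset (I × Qb)} {n : I → ℕ} {v : I × Qb} (h : v ∈ pwd P n) : v ∈ P := by
  obtain ⟨u, hu, h1⟩ := List.mem_flatMap.1 h
  rw [List.eq_of_mem_replicate h1]
  exact Finset.mem_toList.1 hu

lemma count_pwd [DecidableEq Qb] (P : Finset (I × Qb)) (n : I → ℕ) (v : I × Qb) :
    (pwd P n).count v = if v ∈ P then n v.1 else 0 := by
  rw [pwd, List.count_flatMap]
  have h1 : (P.toList.map (List.count v ∘ fun v => List.replicate (n v.1) v)).sum =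
      ∑ u ∈ P, if u = v then n u.1 else 0 := by
    rw [← Finset.sum_map_toList]
    congr 1
    apply List.map_congr_left
    intro u _
    change List.count v (List.replicate (n u.1) u) = _
    rw [List.count_replicate]
    simp only [beq_iff_eq]
  rw [h1, Finset.sum_ite_eq']

lemma prod_pwd (P : Finset (I × Qb)) (n : I → ℕ) :
    ((pwd P n).map Prod.snd).prod = ∏ v ∈ P, v.2 ^ n v.1 := by
  rw [← Finset.prod_map_toList, pwd]
  induction P.toList with
  | nil => simp
  | cons u l ih =>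
    rw [List.flatMap_cons, List.map_append, List.prod_append, ih, List.map_replicate,
      List.prod_replicate, List.map_cons, List.prod_cons]

lemma sum_pwd (P : Finset (I × Qb)) (n : I → ℕ) (f : I → ℕ) :
    ((pwd P n).map fun l => f l.1).sum = ∑ v ∈ P, n v.1 * f v.1 := by
  rw [← Finset.sum_map_toList, pwd]
  induction P.toList with
  | nil => simp
  | cons u l ih =>
    rw [List.flatMap_cons, List.map_append, List.sum_append, ih, List.map_replicate,
      List.sum_replicate, List.map_cons, List.sum_cons, smul_eq_mul]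

end Words

end Pool.Agent.H27.Two
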