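import Pool.Agent.H27.Lin.Count
import Pool.Agent.H27.Two.Defs

/-!
# Blocks: signs and slopes
-/

set_option autoImplicit false
set_option linter.unusedSectionVars false

namespace Pool.Agent.H27.Two

open Pool.Agent.Q56.FD hiding Qb
open Pool.Agent.H27.K3 Pool.Agent.H27.Lin IntermediateField

/-- For every block there is an automorphism of the field of algebraic numbers which acts as complex
conjugation on the conjugates of the `γ t` with `t` in the block, and trivially on the conjugates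
of all other `γ t`. -/
def BlockSigns {I J : Type*} (q : ℕ) (w : I → ℕ) (γ : I → Qb) (B : I → J) : Prop :=
  ∀ b, ∃ σ : Qb ≃ₐ[ℚ] Qb,
    (∀ t, B t = b → ∀ z, IsConjRoot ℚ (γ t) z → σ z = (q : Qb) ^ w t / z) ∧
    ∀ t, B t ≠ b → ∀ z, IsConjRoot ℚ (γ t) z → σ z = z

theorem blockSigns_of {I J : Type*} {q : ℕ} (hq : 0 < q) {w : I → ℕ} {γ : I → Qb} {B : I → J}
    (hfin : ∀ b, {t | B t = b}.Finite) (hw : ∀ t, IsWeil q (w t) (γ t))
    (h : BlocksMeetInReal γ B) : BlockSigns q w γ B := by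
  classical
  intro b
  let S : Finset I := (hfin b).toFinset
  have hS : ∀ t, t ∈ S ↔ B t = b := fun t => (hfin b).mem_toFinset
  let P : Polynomial ℚ := ∏ t ∈ S, minpoly ℚ (γ t)
  have hP0 : P ≠ 0 := Finset.prod_ne_zero_iff.2 fun t _ =>
    minpoly.ne_zero (Algebra.IsIntegral.isIntegral (γ t))
  let T : Set Qb := {z | ∃ t, B t = b ∧ IsConjRoot ℚ (γ t) z}
  let L : IntermediateField ℚ Qb := IntermediateField.adjoin ℚ T
  let M : IntermediateField ℚ Qb :=
    IntermediateField.adjoin ℚ {z | ∃ t, B t ≠ b ∧ IsConjRoot ℚ (γ t) z}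
  have hT : T = P.rootSet Qb := by
    ext z
    rw [Polynomial.mem_rootSet]
    constructor
    · rintro ⟨t, ht, hz⟩
      refine ⟨hP0, ?_⟩
      rw [map_prod]
      refine Finset.prod_eq_zero ((hS t).2 ht) ?_
      have h1 := (isConjRoot_iff_mem_minpoly_rootSet
        (Algebra.IsIntegral.isIntegral (γ t))).1 hz
      exact (Polynomial.mem_rootSet.1 h1).2
    · rintro ⟨-, hz⟩
      rw [map_prod] at hz
      obtain ⟨t, ht, h1⟩ := Finset.prod_eq_zero_iff.1 hz
      exact ⟨t, (hS t).1 ht, (isConjRoot_iff_mem_minpoly_rootSet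
        (Algebra.IsIntegral.isIntegral (γ t))).2 (Polynomial.mem_rootSet.2
          ⟨minpoly.ne_zero (Algebra.IsIntegral.isIntegral (γ t)), h1⟩)⟩
  have hsp : P.IsSplittingField ℚ L := by
    change P.IsSplittingField ℚ (IntermediateField.adjoin ℚ T)
    rw [hT]
    exact IntermediateField.adjoin_rootSet_isSplittingField (IsAlgClosed.splits _)
  have hfd : FiniteDimensional ℚ L := Polynomial.IsSplittingField.finiteDimensional L P
  have hnorm : Normal ℚ L := Normal.of_isSplittingField P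
  have hgal : IsGalois ℚ L := ⟨⟩
  obtain ⟨φ⟩ := exists_cpx
  obtain ⟨c, hc⟩ := exists_conj φ
  let res := AlgEquiv.restrictNormalHom (F := ℚ) (K₁ := Qb) L
  let H : Subgroup (L ≃ₐ[ℚ] L) := M.fixingSubgroup.map res
  have hcH : res c ∈ H := by
    rw [← IntermediateField.fixingSubgroup_fixedField H]
    rw [IntermediateField.mem_fixingSubgroup_iff]
    intro x hx
    rw [IntermediateField.mem_fixedField_iff] at hx
    have hxM : (x : Qb) ∈ M := by
      rw [← InfiniteGalois.fixedField_fixingSubgroup M, IntermediateField.mem_fixedField_iff]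
      intro σ hσ
      have h1 := hx (res σ) ⟨σ, hσ, rfl⟩
      have h2 := AlgEquiv.restrictNormal_commutes σ L x
      change ((res σ x : L) : Qb) = σ x at h2
      rw [← h2, h1]
    have hreal := h b x x.2 hxM φ
    apply Subtype.ext
    have h2 := AlgEquiv.restrictNormal_commutes c L x
    change ((res c x : L) : Qb) = c x at h2
    rw [h2]
    apply φ.injective
    rw [hc]
    exact Complex.conj_eq_iff_im.2 hreal
  obtain ⟨σ, hσ, hσc⟩ := hcH
  refine ⟨σ, fun t ht z hz => ?_, fun t ht z hz => ?_⟩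
  · have hzL : z ∈ L := IntermediateField.subset_adjoin ℚ T ⟨t, ht, hz⟩
    have h1 := AlgEquiv.restrictNormal_commutes σ L ⟨z, hzL⟩
    have h2 := AlgEquiv.restrictNormal_commutes c L ⟨z, hzL⟩
    change ((res σ ⟨z, hzL⟩ : L) : Qb) = σ z at h1
    change ((res c ⟨z, hzL⟩ : L) : Qb) = c z at h2
    rw [hσc] at h1
    rw [← h1, h2]
    exact ((hw t).conj hz).conj_eq hq hc
  · exact (IntermediateField.mem_fixingSubgroup_iff _ σ).1 hσ z
      (IntermediateField.subset_adjoin ℚ _ ⟨t, ht, hz⟩)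

section Slopes

variable {I J : Type*} [DecidableEq J] {p : ℕ} [Fact p.Prime] {a : ℕ}
  {ι : Qb →+* PadicAlgCl p} {lam : Qb → ℚ} {w : I → ℕ} {γ : I → Qb} {B : I → J}

/-- the slopes of the letters of a block -/
noncomputable def slopeSum (lam : Qb → ℚ) (w : I → ℕ) (B : I → J) (b : J) (L : List (I × Qb))
    (g : Qb ≃ₐ[ℚ] Qb) : ℚ :=
  (L.map fun l => if B l.1 = b then 2 * lam (g l.2) - (w l.1 : ℚ) else 0).sum

/-- the effect of a sign -/
lemma sum_flip (ha : 0 < a) (hlam : ∀ z, (lam z : ℝ) = sl (p ^ a) ι z)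
    (hw : ∀ t, IsWeil (p ^ a) (w t) (γ t)) {b : J} {σ : Qb ≃ₐ[ℚ] Qb}
    (hσ : ∀ t, B t = b → ∀ z, IsConjRoot ℚ (γ t) z → σ z = ((p ^ a : ℕ) : Qb) ^ w t / z)
    (hσ' : ∀ t, B t ≠ b → ∀ z, IsConjRoot ℚ (γ t) z → σ z = z)
    {L : List (I × Qb)} (hL : ∀ l ∈ L, IsConjRoot ℚ (γ l.1) l.2) (g : Qb ≃ₐ[ℚ] Qb) :
    (L.map fun l => 2 * lam ((g.trans σ) l.2) - (w l.1 : ℚ)).sum =
      (L.map fun l => 2 * lam (g l.2) - (w l.1 : ℚ)).sum - 2 * slopeSum lam w B b L g := by
  have hq : 0 < p ^ a := pow_pos (Fact.out : p.Prime).pos a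
  induction L with
  | nil => simp [slopeSum]
  | cons l L ih =>
    have h1 := ih fun l' hl' => hL l' (List.mem_cons_of_mem _ hl')
    have hz : IsConjRoot ℚ (γ l.1) (g l.2) :=
      (hL l List.mem_cons_self).trans (isConjRoot_of_algEquiv l.2 g)
    have h2 : slopeSum lam w B b (l :: L) g =
        (if B l.1 = b then 2 * lam (g l.2) - (w l.1 : ℚ) else 0) + slopeSum lam w B b L g := by
      rw [slopeSum, List.map_cons, List.sum_cons]
      rfl
    rw [List.map_cons, List.map_cons, List.sum_cons, List.sum_cons, h1, h2]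
    have h3 : 2 * lam ((g.trans σ) l.2) - (w l.1 : ℚ) = 2 * lam (g l.2) - (w l.1 : ℚ) -
        2 * (if B l.1 = b then 2 * lam (g l.2) - (w l.1 : ℚ) else 0) := by
      change 2 * lam (σ (g l.2)) - (w l.1 : ℚ) = _
      by_cases hb : B l.1 = b
      · rw [hσ l.1 hb _ hz, if_pos hb, lam_dual ha hlam (((hw l.1).conj hz).ne_zero hq)]
        ring
      · rw [hσ' l.1 hb _ hz, if_neg hb]
        ring
    rw [h3]
    ring

/-- the slopes of the letters of one block of a relation are bounded -/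
lemma slopeSum_le (ha : 0 < a) (hlam : ∀ z, (lam z : ℝ) = sl (p ^ a) ι z)
    (hw : ∀ t, IsWeil (p ^ a) (w t) (γ t)) (hB : BlockSigns (p ^ a) w γ B) {β : Qb} {i : ℕ}
    (hβ : IsWeil (p ^ a) i β) {D : ℚ} (hD : ∀ β', IsConjRoot ℚ β β' → width lam i β' ≤ D)
    {L : List (I × Qb)} (hL : ∀ l ∈ L, IsConjRoot ℚ (γ l.1) l.2) {j : ℕ}
    (hprod : β * (L.map Prod.snd).prod = ((p ^ a : ℕ) : Qb) ^ j)
    (hdeg : i + (L.map fun l => w l.1).sum = 2 * j) (b : J) (g : Qb ≃ₐ[ℚ] Qb) :
    |slopeSum lam w B b L g| ≤ D := by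
  obtain ⟨σ, hσ, hσ'⟩ := hB b
  have h1 := relation_slopes ha hlam hw hβ hL hprod hdeg g
  have h2 := relation_slopes ha hlam hw hβ hL hprod hdeg (g.trans σ)
  rw [sum_flip ha hlam hw hσ hσ' hL g] at h2
  have h3 := abs_le.1 (hD (g β) (isConjRoot_of_algEquiv β g))
  have h4 := abs_le.1 (hD ((g.trans σ) β) (isConjRoot_of_algEquiv β (g.trans σ)))
  rw [abs_le]
  constructor <;> linarith [h3.1, h3.2, h4.1, h4.2]

end Slopes

end Pool.Agent.H27.Two
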